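import Pool.Agent.Results.MP_dd244f_an.AngularSharpLargeExponents
import Pool.Agent.Run7.h767.BA.Const

set_option autoImplicit false

open MeasureTheory

namespace Pool.Agent.Results.MP_3dd6d4_an.AngularTypePowers

/-- The `n`-th power of the Beurling transform: the Fourier multiplier with symbol
`(conj ξ / ξ) ^ n`, in the literal form of the frozen statement. -/
noncomputable def T (n : ℕ) (f : ℂ → ℂ) (z : ℂ) : ℂ :=
  ∫ ξ : ℂ,
    Complex.exp (2 * (Real.pi : ℂ) * Complex.I * ((z.re * ξ.re + z.im * ξ.im : ℝ) : ℂ)) *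
      ((starRingEnd ℂ ξ / ξ) ^ n *
        ∫ w : ℂ, Complex.exp (-(2 * (Real.pi : ℂ) * Complex.I *
          ((w.re * ξ.re + w.im * ξ.im : ℝ) : ℂ))) * f w)

/-- The constant `n ^ (1 - 2/p) (p - 1)` of the question. -/
noncomputable def B (n : ℕ) (p : ℝ) : ℝ := (n : ℝ) ^ (1 - 2 / p) * (p - 1)

/-- The constant `(1/q)_n / (1/p)_n`, written as a product over `j = 0, …, n - 1`. -/
noncomputable def K (n : ℕ) (p : ℝ) : ℝ :=
  ∏ j ∈ Finset.range n, (((j : ℝ) + 1 - 1 / p) / ((j : ℝ) + 1 / p))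

/-- `f` is of angular type `2 n`: `f (a z) = a ^ (2 n) f z` for `|a| = 1`, that is
`f (r e^{iθ}) = e^{2 n i θ} φ(r)`. -/
def AngularType (n : ℕ) (f : ℂ → ℂ) : Prop := ∀ a z : ℂ, ‖a‖ = 1 → f (a * z) = a ^ (2 * n) * f z

/-- The angular class on which the constant of the question is sharp up to a factor `1 - 1/(3p)`.
For every `n ≥ 1` and every real `p ≥ 400 n ^ 2`:
(1) the inequality of the question, `‖T ^ n f‖_p ≤ n ^ (1 - 2/p) (p - 1) ‖f‖_p`, holds for all Schwartz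
functions `f` of angular type `2 n`;
(2) the exact norm of `T ^ n` on this class is `K n p = (1/q)_n / (1/p)_n`;
(3) `(1 - 1/(3p)) n ^ (1 - 2/p) (p - 1) ≤ K n p ≤ n ^ (1 - 2/p) (p - 1)`. -/
theorem result (n : ℕ) (hn : 1 ≤ n) (p : ℝ) (hp : 400 * (n : ℝ) ^ 2 ≤ p) :
    (∀ f : SchwartzMap ℂ ℂ, AngularType n f →
      eLpNorm (T n f) (ENNReal.ofReal p) (volume : Measure ℂ)
        ≤ ENNReal.ofReal (B n p) * eLpNorm f (ENNReal.ofReal p) (volume : Measure ℂ)) ∧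
    (∀ f : SchwartzMap ℂ ℂ, AngularType n f →
      eLpNorm (T n f) (ENNReal.ofReal p) (volume : Measure ℂ)
        ≤ ENNReal.ofReal (K n p) * eLpNorm f (ENNReal.ofReal p) (volume : Measure ℂ)) ∧
    (∀ c : ℝ, c < K n p →
      ∃ f : SchwartzMap ℂ ℂ, HasCompactSupport f ∧ AngularType n f ∧
        ENNReal.ofReal c * eLpNorm f (ENNReal.ofReal p) (volume : Measure ℂ)
          < eLpNorm (T n f) (ENNReal.ofReal p) (volume : Measure ℂ)) ∧
    (1 - 1 / (3 * p)) * B n p ≤ K n p ∧ K n p ≤ B n p := by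
  have hn1 : (1 : ℝ) ≤ n := by exact_mod_cast hn
  have hn2 : (1 : ℝ) ≤ (n : ℝ) ^ 2 := by nlinarith
  have hp2 : 2 ≤ p := by linarith
  obtain ⟨h1, h2⟩ := MP_dd244f_an.AngularSharpLargeExponents.result n hn p hp
  have hK : MP_dd244f_an.AngularSharpLargeExponents.K n p = K n p :=
    (Y282.RB.K3.main n p (by linarith)).symm
  obtain ⟨h3, h4⟩ : (1 - 1 / (3 * p)) * B n p ≤ K n p ∧ K n p ≤ B n p :=
    Run7.h767.BA.compare hn hp2
  rw [hK] at h1 h2
  refine ⟨fun f hf => (h1 f hf).trans ?_, h1, fun c hc => ?_, h3, h4⟩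
  · exact mul_le_mul_left (ENNReal.ofReal_le_ofReal h4) _
  · obtain ⟨f, hf1, hf2, hf3⟩ := h2 c hc
    exact ⟨f, hf1, hf2, hf3⟩

end Pool.Agent.Results.MP_3dd6d4_an.AngularTypePowers
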