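import Mathlib
import Pool.Agent.Run7.h695.BT.Band

/-!
# `‖T ^ n‖_p ≤ n ^ (1 - 2/p) (p - 1)` on functions with angular spectrum in `(-6n, n]`

A function `f` on the plane has angular type `j` if `f (b z) = b ^ j f z` for `|b| = 1`, that is
`f (r e ^ (i θ)) = φ (r) e ^ (i j θ)`.  The inequality of the question holds for all `n ≥ 1`, all
real `p ≥ 2` and all finite sums `f = ∑ j ∈ S, g j` of Schwartz functions `g j` of type `j` with
`-6n < j ≤ n`.

Proof: on a type `j ≤ n` the operator is, up to a unimodular factor, the identity minus an average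
over the dilations `z ↦ v z`, `0 < v < 1`, with a Jacobi polynomial as kernel; averaging over the
rotations as well writes `T ^ n`, extended by the identity to the other types, as the identity minus
an integral over dilations and rotations whose `L ^ p` norm is controlled by the square function of
the kernels; its size is bounded with the differential equation of the kernels; finally
interpolation between `2` and `∞`.
-/

set_option autoImplicit false

open MeasureTheory

namespace Pool.Agent.Results.MP_3dd6d4_an.AngularWindow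

/-- The `n`-th power of the Beurling transform of a Schwartz function: the Fourier multiplier with
symbol `(conj ξ / ξ) ^ n`, in the literal form of the frozen statement. -/
noncomputable def T (n : ℕ) (f : SchwartzMap ℂ ℂ) (z : ℂ) : ℂ :=
  ∫ ξ : ℂ,
    Complex.exp (2 * (Real.pi : ℂ) * Complex.I * ((z.re * ξ.re + z.im * ξ.im : ℝ) : ℂ)) *
      ((starRingEnd ℂ ξ / ξ) ^ n *
        ∫ w : ℂ, Complex.exp (-(2 * (Real.pi : ℂ) * Complex.I *
          ((w.re * ξ.re + w.im * ξ.im : ℝ) : ℂ))) * f w)

/-- `f (b z) = b ^ j f z` for all `|b| = 1`: the angular type is `j`. -/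
def AngularType (j : ℤ) (f : SchwartzMap ℂ ℂ) : Prop :=
  ∀ b z : ℂ, ‖b‖ = 1 → f (b * z) = b ^ j * f z

/-- For all `n ≥ 1`, all real `p ≥ 2` and all finite sums `f = ∑ j ∈ S, g j` of Schwartz functions
`g j` of angular type `j`, where `-6n < j ≤ n` for all `j ∈ S`:
`‖T ^ n f‖_p ≤ n ^ (1 - 2/p) (p - 1) ‖f‖_p`. -/
theorem result : ∀ n : ℕ, 1 ≤ n → ∀ p : ℝ, 2 ≤ p → ∀ (S : Finset ℤ) (g : ℤ → SchwartzMap ℂ ℂ),
    (∀ j ∈ S, AngularType j (g j)) → (∀ j ∈ S, -(6 * (n : ℤ)) < j ∧ j ≤ (n : ℤ)) →
      eLpNorm (T n (∑ j ∈ S, g j)) (ENNReal.ofReal p) volume ≤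
        ENNReal.ofReal ((n : ℝ) ^ (1 - 2 / p) * (p - 1)) *
          eLpNorm (fun z : ℂ => (∑ j ∈ S, g j : SchwartzMap ℂ ℂ) z) (ENNReal.ofReal p) volume := by
  intro n hn p hp S g hg hS
  exact Pool.Agent.Run7.h695.BT.bandB hn hS hg hp

end Pool.Agent.Results.MP_3dd6d4_an.AngularWindow
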