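import Mathlib
import Pool.Agent.Run7.h695.BT.Sing

/-!
# `‖T ^ n‖_p ≤ n ^ (1 - 2/p) (p - 1)` on every single angular type except `2n`

A function `f` on the plane has angular type `j` if `f (b z) = b ^ j f z` for `|b| = 1`, that is
`f (r e ^ (i θ)) = φ (r) e ^ (i j θ)`.  For every `n ≥ 1`, every real `p ≥ 2`, every integer
`j ≠ 2n` and every Schwartz function `f` of type `j` the inequality of the question holds.

Proof: on a type `j ≤ n` the operator `T ^ n` is, up to a unimodular factor, the identity minus an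
average over the dilations `z ↦ v z`, `0 < v < 1`, with a Jacobi polynomial as kernel; on a type
`j > n` it is the transposed operator, an average over `z ↦ z / v`.  So it is bounded on `L ^ ∞` if
`j ≠ 2n`, and by interpolation with `L ^ 2` its norm on `L ^ p` is at most `C ^ (1 - 2/p)`, where
`C - 1` is the integral of the modulus of the kernel.  The bound `C ≤ 6.7 n + 0.67` holds for all
`n` and all `j ≠ 2n`; it is proved from explicit moments of the kernels, a virial identity (which
removes a logarithm) and a bound of Sonin's type for `|j - 2n| = 1`, all based on the hypergeometric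
equation of the kernels.
-/

set_option autoImplicit false

open MeasureTheory

namespace Pool.Agent.Results.MP_3dd6d4_an.SingleTypes

/-- The `n`-th power of the Beurling transform of a Schwartz function: the Fourier multiplier with
symbol `(conj ξ / ξ) ^ n`, in the literal form of the frozen statement. -/
noncomputable def T (n : ℕ) (f : SchwartzMap ℂ ℂ) (z : ℂ) : ℂ :=
  ∫ ξ : ℂ,
    Complex.exp (2 * (Real.pi : ℂ) * Complex.I * ((z.re * ξ.re + z.im * ξ.im : ℝ) : ℂ)) *
      ((starRingEnd ℂ ξ / ξ) ^ n *
        ∫ w : ℂ, Complex.exp (-(2 * (Real.pi : ℂ) * Complex.I *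
          ((w.re * ξ.re + w.im * ξ.im : ℝ) : ℂ))) * f w)

/-- `f (b z) = b ^ j f z` for all `|b| = 1`: the angular type is `j`. -/
def AngularType (j : ℤ) (f : SchwartzMap ℂ ℂ) : Prop :=
  ∀ b z : ℂ, ‖b‖ = 1 → f (b * z) = b ^ j * f z

/-- For all `n ≥ 1`, all real `p ≥ 2`, all integers `j ≠ 2n` and all Schwartz functions `f` of
angular type `j`: `‖T ^ n f‖_p ≤ n ^ (1 - 2/p) (p - 1) ‖f‖_p`. -/
theorem result : ∀ n : ℕ, 1 ≤ n → ∀ p : ℝ, 2 ≤ p → ∀ (j : ℤ) (f : SchwartzMap ℂ ℂ),
    j ≠ 2 * (n : ℤ) → AngularType j f →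
      eLpNorm (T n f) (ENNReal.ofReal p) volume ≤
        ENNReal.ofReal ((n : ℝ) ^ (1 - 2 / p) * (p - 1)) *
          eLpNorm (fun z : ℂ => f z) (ENNReal.ofReal p) volume := by
  intro n hn p hp j f hj hf
  exact Pool.Agent.Run7.h695.BT.singB hn hj hf hp

end Pool.Agent.Results.MP_3dd6d4_an.SingleTypes
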