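import Mathlib
import Pool.Agent.Run7.h695.BT.Sparse

/-!
# `‖T ^ n‖_p ≤ n ^ (1 - 2/p) (p - 1)` on sparse angular spectra

A function `f` on the plane has angular type `j` if `f (b z) = b ^ j f z` for `|b| = 1`, that is
`f (r e ^ (i θ)) = φ (r) e ^ (i j θ)`.  Let `R, D ≥ 1` and let `S` be a finite set of integers `j`
with `-R n ≤ j ≤ n`, or `n < j ≤ R n`, `|j - 2n| ≥ 2` and `|j - 2n| ≥ n / D`.  If

  `|S| D log (256 D ^ 2 (R + 1) n) ≤ 10.4 n max (1, ((p - 1) / 7.4) ^ 2)`,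

then the inequality of the question holds on all sums `f = ∑ j ∈ S, g j` of Schwartz functions `g j`
of type `j`.  So for all `p ≥ 2` the spectrum may be any set of about `10.4 n / log n` integers in
`[-R n, n] ∪ [3n, R n]` (take `D = 1`), and the admissible number grows like `p ^ 2`.

Proof: `T ^ n` on the functions with spectrum in `S`, extended by the identity to the other types, is
up to a unimodular factor the identity minus integrals over dilations and rotations whose kernels are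
the square functions of Jacobi type kernels.  These are bounded by the inequality of Cauchy and
Schwarz and explicit moments, which gives a bound on `L ^ ∞` with the square root of the number of
types.  Then interpolation with `L ^ 2`.
-/

set_option autoImplicit false

open MeasureTheory

namespace Pool.Agent.Results.MP_3dd6d4_an.SparseSpectra

/-- The `n`-th power of the Beurling transform of a Schwartz function: the Fourier multiplier with
symbol `(conj ξ / ξ) ^ n`, in the literal form of the frozen statement. -/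
noncomputable def T (n : ℕ) (f : SchwartzMap ℂ ℂ) (z : ℂ) : ℂ :=
  ∫ ξ : ℂ,
    Complex.exp (2 * (Real.pi : ℂ) * Complex.I * ((z.re * ξ.re + z.im * ξ.im : ℝ) : ℂ)) *
      ((starRingEnd ℂ ξ / ξ) ^ n *
        ∫ w : ℂ, Complex.exp (-(2 * (Real.pi : ℂ) * Complex.I *
          ((w.re * ξ.re + w.im * ξ.im : ℝ) : ℂ))) * f w)

/-- `f (b z) = b ^ j f z` for all `|b| = 1`: the angular type is `j`. -/
def AngularType (j : ℤ) (f : SchwartzMap ℂ ℂ) : Prop :=
  ∀ b z : ℂ, ‖b‖ = 1 → f (b * z) = b ^ j * f z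

/-- `-R n ≤ j ≤ n`, or `n < j ≤ R n`, `|j - 2n| ≥ 2` and `D |j - 2n| ≥ n`. -/
def Admissible (n : ℕ) (R D : ℝ) (j : ℤ) : Prop :=
  (-(R * n) ≤ (j : ℝ) ∧ (j : ℝ) ≤ n) ∨
    ((n : ℝ) < j ∧ (j : ℝ) ≤ R * n ∧ 2 ≤ |(j : ℝ) - 2 * n| ∧ (n : ℝ) ≤ D * |(j : ℝ) - 2 * n|)

/-- For all `n ≥ 1`, all real `p ≥ 2`, `R ≥ 1`, `D ≥ 1`, all finite sets `S` of admissible integers
with `|S| D log (256 D ^ 2 (R + 1) n) ≤ 10.4 n max (1, ((p - 1) / 7.4) ^ 2)` and all sums
`f = ∑ j ∈ S, g j` of Schwartz functions `g j` of angular type `j`: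
`‖T ^ n f‖_p ≤ n ^ (1 - 2/p) (p - 1) ‖f‖_p`. -/
theorem result : ∀ n : ℕ, 1 ≤ n → ∀ p R D : ℝ, 2 ≤ p → 1 ≤ R → 1 ≤ D → ∀ S : Finset ℤ,
    (∀ j ∈ S, Admissible n R D j) →
    (S.card : ℝ) * D * Real.log (256 * D ^ 2 * (R + 1) * n) ≤
      10.4 * n * max 1 (((p - 1) / 7.4) ^ 2) →
    ∀ g : ℤ → SchwartzMap ℂ ℂ, (∀ j ∈ S, AngularType j (g j)) →
      eLpNorm (T n (∑ j ∈ S, g j)) (ENNReal.ofReal p) volume ≤
        ENNReal.ofReal ((n : ℝ) ^ (1 - 2 / p) * (p - 1)) *
          eLpNorm (fun z : ℂ => (∑ j ∈ S, g j : SchwartzMap ℂ ℂ) z) (ENNReal.ofReal p) volume := by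
  intro n hn p R D hp hR hD S hS hc g hg
  exact Pool.Agent.Run7.h695.BT.sparseB hn hR hD hS hg hp hc

end Pool.Agent.Results.MP_3dd6d4_an.SparseSpectra
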